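import Pool.Agent.Helper47.BL.NI

set_option autoImplicit false

/-! Row CLS: the solutions with a divisor in one window. -/

namespace Pool.Agent.Helper1.BL

open Finset Pool.Agent.Helper44.BB Pool.Agent.Helper47.BL

theorem one_le_yy {c : ℝ} (hc : 0 < c) (x : ℝ) : 1 ≤ yy c x := by
  unfold yy
  exact Real.one_le_exp (by positivity)

theorem CLS (h1 : ST_CN) (h2 : ST_SM) : ST_CLS := by
  intro c hc hc2
  obtain ⟨x₀, hx₀⟩ := h2 c hc hc2
  refine ⟨max x₀ 1, ?_⟩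
  intro x X i K hx hxX hi hK
  have hxx : x₀ ≤ x := le_trans (le_max_left _ _) hx
  have hx1 : 1 ≤ x := le_trans (le_max_right _ _) hx
  have hy1 : 1 ≤ yy c x := one_le_yy hc x
  have hy0 : 0 < yy c x := by linarith
  have hX1 : 1 ≤ X := hx1.trans hxX
  have hi' : (100 : ℝ) ≤ i := by exact_mod_cast hi
  set y : ℝ := yy c x with hy
  choose! q d hqd using fun b hb => (hK b hb).2.2
  set Z : ℝ := X / y ^ ((i : ℝ) / 100) with hZ
  have hyp : ∀ e : ℝ, 0 < y ^ e := fun e => Real.rpow_pos_of_pos hy0 e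
  have hZ0 : 0 < Z := div_pos (by linarith) (hyp _)
  set N : Finset ℕ := K.image (fun b => b / q b) with hN
  have hee0 := ee_nonneg i
  have hee1 : ee i ≤ 1 := by
    unfold ee
    split_ifs
    · rw [div_le_one (by positivity)]; linarith
    · norm_num
  -- the cofactors
  have hn : ∀ b ∈ K, b = q b * (b / q b) ∧ Squarefree (b / q b) ∧ ((b / q b : ℕ) : ℝ) ≤ Z ∧
      (∀ p : ℕ, p.Prime → p ∣ b / q b → (p : ℝ) ≤ y ^ (((i : ℝ) + 1) / 100)) ∧ 0 < b / q b := by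
    intro b hb
    obtain ⟨hq, hqb, hmax, hq1, hq2, -⟩ := hqd b hb
    obtain ⟨hcyc, hbX, -⟩ := hK b hb
    have e : b = q b * (b / q b) := (Nat.mul_div_cancel' hqb).symm
    have hdvd : b / q b ∣ b := ⟨q b, by rw [mul_comm]; exact e⟩
    have hb0 : b ≠ 0 := hcyc.sa.ne_zero
    refine ⟨e, hcyc.sa.squarefree_of_dvd hdvd, ?_, ?_, ?_⟩
    · rw [hZ, le_div_iff₀ (hyp _)]
      calc ((b / q b : ℕ) : ℝ) * y ^ ((i : ℝ) / 100) ≤ ((b / q b : ℕ) : ℝ) * (q b : ℝ) :=
            mul_le_mul_of_nonneg_left hq1 (by positivity)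
        _ = (b : ℝ) := by
            rw [mul_comm, ← Nat.cast_mul, ← e]
        _ ≤ X := hbX
    · intro p hp hpd
      have h5 := hmax p hp (hpd.trans hdvd)
      have h6 : (p : ℝ) ≤ (q b : ℝ) := by exact_mod_cast h5
      exact h6.trans hq2.le
    · exact Nat.pos_of_ne_zero (fun h => hb0 (by rw [e, h, mul_zero]))
  have hNm : ∀ a ∈ N, Squarefree a ∧ (a : ℝ) ≤ Z ∧
      (∀ p : ℕ, p.Prime → p ∣ a → (p : ℝ) ≤ y ^ (((i : ℝ) + 1) / 100)) ∧ 0 < a := by
    intro a ha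
    rw [hN, mem_image] at ha
    obtain ⟨b, hb, rfl⟩ := ha
    exact (hn b hb).2
  -- the number of the cofactors
  have hNc : (N.card : ℝ) ≤ Z * y ^ (-(ee i)) := by
    by_cases h4 : i ≤ 400
    · have hi4 : (i : ℝ) ≤ 400 := by exact_mod_cast h4
      have hv := hx₀ x (((i : ℝ) + 1) / 100) Z N hxx (by linarith) (by linarith) ?_
        (fun a ha => ⟨(hNm a ha).1, (hNm a ha).2.1, (hNm a ha).2.2.1⟩)
      · have e : 1 / (((i : ℝ) + 1) / 100) = ee i := by
          unfold ee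
          rw [if_pos h4, one_div_div]
        rw [e] at hv
        exact hv
      · -- `x ≤ Z y ^ 5`
        have h5 : y ^ ((i : ℝ) / 100) ≤ y ^ (5 : ℕ) := by
          rw [← Real.rpow_natCast]
          exact Real.rpow_le_rpow_of_exponent_le hy1 (by push_cast; linarith)
        calc x ≤ X := hxX
          _ = Z * y ^ ((i : ℝ) / 100) := by rw [hZ, div_mul_cancel₀ _ (hyp _).ne']
          _ ≤ Z * y ^ (5 : ℕ) := mul_le_mul_of_nonneg_left h5 hZ0.le
    · have e : ee i = 0 := by unfold ee; rw [if_neg h4]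
      rw [e, neg_zero, Real.rpow_zero, mul_one]
      have hsub : N ⊆ Ioc 0 ⌊Z⌋₊ := by
        intro a ha
        rw [mem_Ioc]
        exact ⟨(hNm a ha).2.2.2, Nat.le_floor (hNm a ha).2.1⟩
      have h5 := card_le_card hsub
      rw [Nat.card_Ioc, Nat.sub_zero] at h5
      calc (N.card : ℝ) ≤ (⌊Z⌋₊ : ℝ) := by exact_mod_cast h5
        _ ≤ Z := Nat.floor_le hZ0.le
  have htt : tt i = 1 - ee i + 1 / 50 := rfl
  -- the counting lemma
  have hcn := h1 (y ^ (((i : ℝ) + 1) / 100)) (y ^ tt i) (y ^ ((i : ℝ) / 100 - tt i)) K N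
    (hyp _).le (Real.one_le_rpow hy1 (by rw [htt]; linarith)) (hyp _).le ?_
  swap
  · intro b hb
    obtain ⟨hq, hqb, hmax, hq1, hq2, hd1, hd2, hd3⟩ := hqd b hb
    exact ⟨(hK b hb).1, q b, b / q b, d b, hq, (hn b hb).1, mem_image_of_mem _ hb, hq2.le, hd1,
      hd2, hd3⟩
  refine hcn.trans ?_
  have e1 : y ^ (((i : ℝ) + 1) / 100) / y ^ tt i ≤ y ^ ((i : ℝ) / 100 - 1 + ee i) := by
    rw [← Real.rpow_sub hy0]
    exact Real.rpow_le_rpow_of_exponent_le hy1 (by rw [htt]; linarith)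
  have e2 : y ^ ((i : ℝ) / 100 - tt i) ≤ y ^ ((i : ℝ) / 100 - 1 + ee i) :=
    Real.rpow_le_rpow_of_exponent_le hy1 (by rw [htt]; linarith)
  have e3 : 2 * y ^ (((i : ℝ) + 1) / 100) / y ^ tt i + y ^ ((i : ℝ) / 100 - tt i) ≤
      3 * y ^ ((i : ℝ) / 100 - 1 + ee i) := by
    rw [mul_div_assoc]; linarith
  calc (N.card : ℝ) * (2 * y ^ (((i : ℝ) + 1) / 100) / y ^ tt i + y ^ ((i : ℝ) / 100 - tt i))
      ≤ (Z * y ^ (-(ee i))) * (3 * y ^ ((i : ℝ) / 100 - 1 + ee i)) := by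
        refine mul_le_mul hNc e3 ?_ (mul_nonneg hZ0.le (hyp _).le)
        have := hyp (((i : ℝ) + 1) / 100)
        have := hyp (tt i)
        have := hyp ((i : ℝ) / 100 - tt i)
        positivity
    _ = 3 * (Z * (y ^ (-(ee i)) * y ^ ((i : ℝ) / 100 - 1 + ee i))) := by ring
    _ = 3 * (Z * y ^ ((i : ℝ) / 100 - 1)) := by
        rw [← Real.rpow_add hy0]; congr 3; ring
    _ = 3 * X / y := by
        rw [Real.rpow_sub hy0, Real.rpow_one, hZ]
        have := (hyp ((i : ℝ) / 100)).ne'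
        field_simp

end Pool.Agent.Helper1.BL
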