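import Pool.Agent.Helper47.BL.Defs

set_option autoImplicit false

/-! Row SK: numbers with many prime factors. -/

namespace Pool.Agent.Helper1.BL

open Finset Pool.Agent.Helper44.BB Pool.Agent.Helper47.BL

theorem SK : ST_SK := by
  intro Z Y lam k A hZ hlam hA
  have hl0 : 0 ≤ lam - 1 := by linarith
  have hlk : 0 < lam ^ k := pow_pos (by linarith) k
  -- the primes of the members lie in `pr Y`
  have hsub : ∀ a ∈ A, a.primeFactors ⊆ pr Y := by
    intro a ha p hp
    obtain ⟨hs, haZ, hk, hY⟩ := hA a ha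
    have hpp := Nat.prime_of_mem_primeFactors hp
    have hpY := hY p hpp (Nat.dvd_of_mem_primeFactors hp)
    unfold pr
    rw [mem_filter, mem_range]
    exact ⟨Nat.lt_succ_of_le (Nat.le_floor hpY), hpp⟩
  have hcnt : ∀ T ∈ (pr Y).powerset,
      ((A.filter (fun a => T ⊆ a.primeFactors)).card : ℝ) ≤ Z * ∏ p ∈ T, (1 / (p : ℝ)) := by
    intro T hT
    have h1 : A.filter (fun a => T ⊆ a.primeFactors) ⊆
        (Ioc 0 ⌊Z⌋₊).filter (fun a => (∏ p ∈ T, p) ∣ a) := by
      intro a ha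
      rw [mem_filter] at ha
      obtain ⟨hs, haZ, hk, hY⟩ := hA a ha.1
      rw [mem_filter, mem_Ioc]
      refine ⟨⟨Nat.pos_of_ne_zero hs.ne_zero, Nat.le_floor haZ⟩, ?_⟩
      calc (∏ p ∈ T, p) ∣ ∏ p ∈ a.primeFactors, p := prod_dvd_prod_of_subset _ _ _ ha.2
        _ = a := Nat.prod_primeFactors_of_squarefree hs
    have h2 := card_le_card h1
    rw [Nat.Ioc_filter_dvd_card_eq_div] at h2
    calc ((A.filter (fun a => T ⊆ a.primeFactors)).card : ℝ)
        ≤ ((⌊Z⌋₊ / ∏ p ∈ T, p : ℕ) : ℝ) := by exact_mod_cast h2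
      _ ≤ (⌊Z⌋₊ : ℝ) / ((∏ p ∈ T, p : ℕ) : ℝ) := Nat.cast_div_le
      _ ≤ Z / ((∏ p ∈ T, p : ℕ) : ℝ) := by
          refine div_le_div_of_nonneg_right (Nat.floor_le hZ) (by positivity)
      _ = Z * ∏ p ∈ T, (1 / (p : ℝ)) := by
          rw [prod_div_distrib, prod_const_one, Nat.cast_prod, mul_one_div]
  have hmain : (A.card : ℝ) * lam ^ k ≤ Z * Real.exp (lam * ∑ p ∈ pr Y, 1 / (p : ℝ)) := by
    calc (A.card : ℝ) * lam ^ k = ∑ a ∈ A, lam ^ k := by rw [sum_const, nsmul_eq_mul]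
      _ ≤ ∑ a ∈ A, ∑ T ∈ a.primeFactors.powerset, ∏ p ∈ T, (lam - 1) := by
          refine sum_le_sum fun a ha => ?_
          rw [← prod_one_add]
          have : ∏ i ∈ a.primeFactors, (1 + (lam - 1)) = lam ^ a.primeFactors.card := by
            rw [prod_const]; congr 1; ring
          rw [this]
          exact pow_le_pow_right₀ hlam (hA a ha).2.2.1
      _ = ∑ a ∈ A, ∑ T ∈ (pr Y).powerset, if T ⊆ a.primeFactors then ∏ p ∈ T, (lam - 1) else 0 := by
          refine sum_congr rfl fun a ha => ?_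
          rw [← sum_filter]
          refine sum_congr ?_ fun _ _ => rfl
          ext T
          rw [mem_powerset, mem_filter, mem_powerset]
          exact ⟨fun h => ⟨h.trans (hsub a ha), h⟩, fun h => h.2⟩
      _ = ∑ T ∈ (pr Y).powerset, (∏ p ∈ T, (lam - 1)) *
            ((A.filter (fun a => T ⊆ a.primeFactors)).card : ℝ) := by
          rw [sum_comm]
          refine sum_congr rfl fun T _ => ?_
          rw [← sum_filter, sum_const, nsmul_eq_mul, mul_comm]
      _ ≤ ∑ T ∈ (pr Y).powerset, (∏ p ∈ T, (lam - 1)) * (Z * ∏ p ∈ T, (1 / (p : ℝ))) := by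
          refine sum_le_sum fun T hT => ?_
          refine mul_le_mul_of_nonneg_left (hcnt T hT) (prod_nonneg fun _ _ => hl0)
      _ = Z * ∏ p ∈ pr Y, (1 + (lam - 1) * (1 / (p : ℝ))) := by
          rw [prod_one_add, mul_sum]
          refine sum_congr rfl fun T _ => ?_
          rw [prod_mul_distrib]; ring
      _ ≤ Z * ∏ p ∈ pr Y, Real.exp (lam * (1 / (p : ℝ))) := by
          refine mul_le_mul_of_nonneg_left (prod_le_prod (fun p _ => by positivity) fun p _ => ?_) hZ
          have h1 : (0 : ℝ) ≤ 1 / (p : ℝ) := by positivity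
          have h2 := Real.add_one_le_exp (lam * (1 / (p : ℝ)))
          nlinarith
      _ = Z * Real.exp (lam * ∑ p ∈ pr Y, 1 / (p : ℝ)) := by
          rw [mul_sum, Real.exp_sum]
  rw [← mul_div_assoc, le_div_iff₀ hlk]
  exact hmain

end Pool.Agent.Helper1.BL
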